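import Pool.Agent.H484.AL.Stm

set_option autoImplicit false

namespace Pool.Agent.H484.AL

open Finset
open scoped Classical

theorem res_bezout (e : ℕ) (α : Fin e → ℕ) :
    ∃ c : Fin e → ℤ, ∑ i, c i * (α i : ℤ) = ((Finset.univ.gcd α : ℕ) : ℤ) := by
  have hmem : ((Finset.univ.gcd α : ℕ) : ℤ) ∈ Ideal.span (Set.range (fun i => (α i : ℤ))) := by
    obtain ⟨D, hD⟩ := (IsPrincipalIdealRing.principal (Ideal.span (Set.range (fun i => (α i : ℤ))))).principal
    have hD' : Ideal.span (Set.range (fun i => (α i : ℤ))) = Ideal.span {D} := hD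
    rw [hD', Ideal.mem_span_singleton]
    have h1 : ∀ i, D ∣ (α i : ℤ) := by
      intro i
      have : (α i : ℤ) ∈ Ideal.span {D} := by
        rw [← hD']
        exact Ideal.subset_span ⟨i, rfl⟩
      exact Ideal.mem_span_singleton.1 this
    have h2 : D.natAbs ∣ Finset.univ.gcd α := by
      apply Finset.dvd_gcd
      intro i _
      exact Int.natAbs_dvd_natAbs.2 (h1 i) |>.trans (by simp)
    exact Int.natAbs_dvd.1 (Int.natCast_dvd_natCast.2 h2)
  exact Ideal.mem_span_range_iff_exists_fun.1 hmem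

theorem t_RES : S_RES := by
  intro e g α he hg hprim
  have : NeZero g := ⟨by omega⟩
  let f : (Fin e → ZMod g) →+ ZMod g :=
    { toFun := fun r => ∑ i, (α i : ZMod g) * r i
      map_zero' := by simp
      map_add' := by
        intro x y
        simp [mul_add, Finset.sum_add_distrib] }
  have hsurj : Function.Surjective f := by
    intro y
    obtain ⟨c, hc⟩ := res_bezout e α
    have hu : (((Finset.univ.gcd α : ℕ)) : ZMod g) * (((Finset.univ.gcd α : ℕ)) : ZMod g)⁻¹ = 1 :=
      ZMod.coe_mul_inv_eq_one _ hprim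
    refine ⟨fun i => (c i : ZMod g) * ((((Finset.univ.gcd α : ℕ)) : ZMod g)⁻¹ * y), ?_⟩
    have hc' : ∑ i, (c i : ZMod g) * (α i : ZMod g) = ((Finset.univ.gcd α : ℕ) : ZMod g) := by
      have := congrArg (fun z : ℤ => (z : ZMod g)) hc
      simpa using this
    show ∑ i, (α i : ZMod g) * ((c i : ZMod g) * ((((Finset.univ.gcd α : ℕ)) : ZMod g)⁻¹ * y)) = y
    have : ∀ i, (α i : ZMod g) * ((c i : ZMod g) * ((((Finset.univ.gcd α : ℕ)) : ZMod g)⁻¹ * y)) =
        ((c i : ZMod g) * (α i : ZMod g)) * ((((Finset.univ.gcd α : ℕ)) : ZMod g)⁻¹ * y) := by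
      intro i; ring
    rw [Finset.sum_congr rfl fun i _ => this i, ← Finset.sum_mul, hc', ← mul_assoc, hu, one_mul]
  have hcard : Nat.card f.ker * g = g ^ e := by
    have h1 := AddSubgroup.card_eq_card_quotient_mul_card_addSubgroup f.ker
    have h2 : Nat.card ((Fin e → ZMod g) ⧸ f.ker) = g := by
      rw [Nat.card_congr (QuotientAddGroup.quotientKerEquivOfSurjective f hsurj).toEquiv,
        Nat.card_zmod]
    have h3 : Nat.card (Fin e → ZMod g) = g ^ e := by
      simp
    rw [h2, h3] at h1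
    rw [h1, mul_comm]
  have heq : (univ.filter (fun r : Fin e → Fin g => g ∣ ∑ i, α i * (r i : ℕ))).card =
      Nat.card f.ker := by
    rw [← Fintype.card_subtype, ← Nat.card_eq_fintype_card]
    apply Nat.card_congr
    refine (Equiv.arrowCongr (Equiv.refl _) (ZMod.finEquiv g).toEquiv).subtypeEquiv (fun r => ?_)
    have hval : ∀ x : Fin g, ((ZMod.finEquiv g) x : ZMod g) = ((x : ℕ) : ZMod g) := by
      intro x
      obtain ⟨n, rfl⟩ : ∃ n, g = n + 1 := ⟨g - 1, by omega⟩
      exact (ZMod.natCast_zmod_val (n := n + 1) (x : ZMod (n + 1))).symm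
    show g ∣ ∑ i, α i * (r i : ℕ) ↔ _ ∈ f.ker
    rw [AddMonoidHom.mem_ker]
    show _ ↔ ∑ i, (α i : ZMod g) * ((ZMod.finEquiv g) (r i) : ZMod g) = 0
    simp only [hval]
    rw [← ZMod.natCast_eq_zero_iff]
    push_cast
    rfl
  rw [heq]
  have he' : g ^ e = g ^ (e - 1) * g := by
    rw [← pow_succ]
    congr 1
    omega
  rw [he'] at hcard
  exact Nat.eq_of_mul_eq_mul_right (by omega) hcard

end Pool.Agent.H484.AL
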